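import Mathlib

namespace Pool.Agent.H.MP_bdb63f_co

/-- 2-connected: at least three vertices, connected, no cut vertex -/
def TwoConn {V : Type} [Fintype V] (G : SimpleGraph V) : Prop :=
  3 ≤ Fintype.card V ∧ G.Connected ∧ ∀ v : V, (G.induce {u | u ≠ v}).Connected

/-- `G` has an `(s,t)`-triple -/
def HasTriple {V : Type} (G : SimpleGraph V) (s t : V) : Prop :=
  ∃ (o : LinearOrder V) (I O : SimpleGraph V), I ≤ G ∧ O ≤ G ∧ I.IsTree ∧ O.IsTree ∧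
    Disjoint I.edgeSet O.edgeSet ∧
    (∀ v, v ≠ t → ∃ w, I.Adj v w ∧ o.lt v w) ∧ (∀ v, v ≠ s → ∃ w, O.Adj v w ∧ o.lt w v)

end Pool.Agent.H.MP_bdb63f_co
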