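import Pool.Agent.H.MP_bdb63f_co.Defs

namespace Pool.Agent.H.MP_bdb63f_co

open SimpleGraph

theorem reach_of_common {V : Type} (G : SimpleGraph V) (L : ℕ) (u v : V) (m : Fin L → V)
    (hm : Function.Injective m) (h1 : ∀ i, G.Adj u (m i)) (h2 : ∀ i, G.Adj (m i) v) :
    G.IsEdgeReachable L u v := by
  intro s hs
  by_contra hc
  have : ∀ i, ∃ e ∈ s, e = s(u, m i) ∨ e = s(m i, v) := by
    intro i
    by_contra hn
    push Not at hn
    apply hc
    have a1 : (G.deleteEdges s).Adj u (m i) :=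
      deleteEdges_adj.2 ⟨h1 i, fun h => (hn _ h).1 rfl⟩
    have a2 : (G.deleteEdges s).Adj (m i) v :=
      deleteEdges_adj.2 ⟨h2 i, fun h => (hn _ h).2 rfl⟩
    exact a1.reachable.trans a2.reachable
  choose f hf hf' using this
  have hinj : Function.Injective f := by
    intro i j hij
    apply hm
    have hj : m j ∈ f i := by
      rw [hij]; rcases hf' j with h | h <;> rw [h] <;> simp
    rcases hf' i with h | h <;> rw [h, Sym2.mem_iff] at hj
    · rcases hj with h' | h'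
      · exact absurd h'.symm (h1 j).ne
      · exact h'.symm
    · rcases hj with h' | h'
      · exact h'.symm
      · exact absurd h' (h2 j).ne
  have h3 : (Set.range f).encard ≤ s.encard := Set.encard_le_encard (by rintro _ ⟨i, rfl⟩; exact hf i)
  have h4 := le_trans hinj.encard_range h3
  simp at h4
  exact absurd hs (not_lt.2 h4)

theorem rank {V : Type} [Fintype V] (o : LinearOrder V) :
    ∃ r : V → ℕ, ∀ x y, o.lt x y → r x < r y := by
  refine ⟨fun x => (Finset.univ.filter fun z => z < x).card, fun x y h => ?_⟩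
  have h' : x < y := h
  refine Finset.card_lt_card ⟨fun z hz => ?_, fun hh => ?_⟩
  · simp only [Finset.mem_filter, Finset.mem_univ, true_and] at hz ⊢
    exact lt_trans hz h'
  · have := hh (Finset.mem_filter.2 ⟨Finset.mem_univ x, h'⟩)
    simp at this

abbrev Gad (n : ℕ) := Fin 3 × Bool × Fin n
abbrev W (n : ℕ) := Bool ⊕ Fin 3 ⊕ (Gad n × Fin (n + 1))

def b {n : ℕ} (i : Bool) : W n := .inl i
def a {n : ℕ} (j : Fin 3) : W n := .inr (.inl j)
def k {n : ℕ} (g : Gad n) (q : Fin (n + 1)) : W n := .inr (.inr (g, q))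

def adj {n : ℕ} : W n → W n → Prop
  | .inl i, .inl i' => i ≠ i'
  | .inl _, .inr (.inl _) => False
  | .inl i, .inr (.inr x) => x.1.2.1 = i
  | .inr (.inl _), .inl _ => False
  | .inr (.inl _), .inr (.inl _) => False
  | .inr (.inl j), .inr (.inr x) => x.1.1 = j ∧ x.2 = 0
  | .inr (.inr x), .inl i => x.1.2.1 = i
  | .inr (.inr x), .inr (.inl j) => x.1.1 = j ∧ x.2 = 0
  | .inr (.inr x), .inr (.inr y) => x.1 = y.1 ∧ x.2 ≠ y.2

def G (n : ℕ) : SimpleGraph (W n) where
  Adj := adj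
  symm := ⟨by
    rintro (i | j | x) (i' | j' | y) h
    · exact Ne.symm h
    · exact h
    · exact h
    · exact h
    · exact h
    · exact h
    · exact h
    · exact h
    · exact ⟨h.1.symm, h.2.symm⟩⟩
  loopless := ⟨by
    rintro (i | j | x) h
    · exact h rfl
    · exact h
    · exact h.2 rfl⟩

variable {n : ℕ}

theorem kb (g : Gad n) (q : Fin (n + 1)) : (G n).Adj (k g q) (b g.2.1) := rfl
theorem ak (g : Gad n) : (G n).Adj (a g.1) (k g 0) := ⟨rfl, rfl⟩
theorem kk (g : Gad n) {q q' : Fin (n + 1)} (h : q ≠ q') : (G n).Adj (k g q) (k g q') := ⟨rfl, h⟩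
theorem bb {i i' : Bool} (h : i ≠ i') : (G n).Adj (b i) (b i') := h

theorem edgeConn : (G n).IsEdgeConnected n := by
  have h1 : ∀ j i, (G n).IsEdgeReachable n (a j) (b i) := fun j i =>
    reach_of_common _ _ _ _ (fun r => k (j, i, r) 0) (fun r r' h => by simpa [k] using h)
      (fun r => ak (j, i, r)) (fun r => kb (j, i, r) 0)
  have h2 : ∀ g q, (G n).IsEdgeReachable n (k g q) (b g.2.1) := fun g q =>
    reach_of_common _ _ _ _ (fun r => k g (q.succAbove r)) (fun r r' h => by simpa [k] using h)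
      (fun r => kk g (Fin.succAbove_ne q r).symm) (fun r => kb g _)
  have h3 : ∀ v, (G n).IsEdgeReachable n v (a 0) := by
    rintro (i | j | ⟨g, q⟩)
    · exact (h1 0 i).symm
    · exact (h1 j true).trans (h1 0 true).symm
    · exact (h2 g q).trans (h1 0 _).symm
  exact fun u v => (h3 u).trans (h3 v).symm

theorem conn_del (hn : 2 ≤ n) (v : W n) : ((G n).induce {u | u ≠ v}).Connected := by
  obtain ⟨i, hi⟩ : ∃ i, b i ≠ v := by
    by_cases h : b true = v
    · exact ⟨false, by rw [← h]; simp [b]⟩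
    · exact ⟨true, h⟩
  have step : ∀ (x y : W n) (hx : x ≠ v) (hy : y ≠ v), (G n).Adj x y →
      ((G n).induce {u | u ≠ v}).Reachable ⟨x, hx⟩ ⟨y, hy⟩ := fun x y hx hy h =>
    Adj.reachable (by exact h)
  have hb : ∀ i' (h : b i' ≠ v), ((G n).induce {u | u ≠ v}).Reachable ⟨b i', h⟩ ⟨b i, hi⟩ := by
    intro i' h
    by_cases e : i' = i
    · subst e; rfl
    · exact step _ _ _ _ (bb e)
  have ha : ∀ j (h : a j ≠ v), ((G n).induce {u | u ≠ v}).Reachable ⟨a j, h⟩ ⟨b i, hi⟩ := by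
    intro j h
    obtain ⟨r, hr⟩ : ∃ r : Fin n, k (j, i, r) 0 ≠ v := by
      by_cases h' : k (j, i, (⟨0, by omega⟩ : Fin n)) 0 = v
      · exact ⟨⟨1, by omega⟩, by rw [← h']; simp [k]⟩
      · exact ⟨_, h'⟩
    exact (step _ _ h hr (ak (j, i, r))).trans (step _ _ hr hi (kb (j, i, r) 0))
  have hk : ∀ g q (h : k g q ≠ v), ((G n).induce {u | u ≠ v}).Reachable ⟨k g q, h⟩ ⟨b i, hi⟩ := by
    intro g q h
    by_cases e : b g.2.1 = v
    · have e1 : k g 0 ≠ v := by rw [← e]; simp [k, b]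
      have e2 : a g.1 ≠ v := by rw [← e]; simp [a, b]
      refine Reachable.trans ?_ ((step _ _ e1 e2 (ak g).symm).trans (ha _ e2))
      by_cases e3 : q = 0
      · subst e3; rfl
      · exact step _ _ _ _ (kk g e3)
    · exact (step _ _ h e (kb g q)).trans (hb _ e)
  have hall : ∀ x : {u | u ≠ v}, ((G n).induce {u | u ≠ v}).Reachable x ⟨b i, hi⟩ := by
    rintro ⟨i' | j | ⟨g, q⟩, h⟩
    · exact hb i' h
    · exact ha j h
    · exact hk g q h
  haveI : Nonempty {u | u ≠ v} := ⟨⟨b i, hi⟩⟩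
  exact ⟨fun x y => (hall x).trans (hall y).symm⟩

theorem twoConn (hn : 2 ≤ n) : TwoConn (G n) := by
  haveI : Nonempty (W n) := ⟨b true⟩
  refine ⟨?_, edgeConn.connected (by omega), conn_del hn⟩
  simp only [Fintype.card_sum, Fintype.card_bool, Fintype.card_fin]
  omega

def grp : W n → Option (Fin 3)
  | .inl _ => none
  | .inr (.inl j) => some j
  | .inr (.inr x) => some x.1.1

theorem nbr_k (g : Gad n) (q : Fin (n + 1)) (w : W n) (h : (G n).Adj (k g q) w) :
    w = b g.2.1 ∨ (w = a g.1 ∧ q = 0) ∨ ∃ q', w = k g q' := by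
  rcases w with i | j | ⟨g', q'⟩
  · left; have : g.2.1 = i := h; rw [this]; rfl
  · right; left; obtain ⟨h1, h2⟩ := h; exact ⟨by rw [← h1]; rfl, h2⟩
  · right; right; obtain ⟨h1, -⟩ := h; exact ⟨q', by rw [show g = g' from h1]; rfl⟩

theorem noTriple (s t : W n) : ¬ HasTriple (G n) s t := by
  rintro ⟨o, I, O, hI, hO, -, -, hd, hup, hdown⟩
  obtain ⟨j, hjs, hjt⟩ : ∃ j : Fin 3, grp s ≠ some j ∧ grp t ≠ some j := by
    generalize grp s = x, grp t = y
    revert x y; decide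
  have hat : (a j : W n) ≠ t := fun h => hjt (by rw [← h]; rfl)
  obtain ⟨w, hw, hlt⟩ := hup _ hat
  obtain ⟨g, hg, rfl⟩ : ∃ g : Gad n, g.1 = j ∧ w = k g 0 := by
    have := hI hw
    rcases w with i | j' | ⟨g, q⟩
    · exact this.elim
    · exact this.elim
    · obtain ⟨h1, h2⟩ := this
      exact ⟨g, h1, by rw [show q = 0 from h2]; rfl⟩
  subst hg
  have hks : ∀ q, k g q ≠ s := fun q h => hjs (by rw [← h]; rfl)
  have hkt : ∀ q, k g q ≠ t := fun q h => hjt (by rw [← h]; rfl)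
  obtain ⟨r, hr⟩ := rank o
  obtain ⟨q1, -, h1⟩ := Finset.exists_min_image Finset.univ (fun q => r (k g q)) ⟨0, Finset.mem_univ _⟩
  obtain ⟨q2, -, h2⟩ := Finset.exists_max_image Finset.univ (fun q => r (k g q)) ⟨0, Finset.mem_univ _⟩
  obtain ⟨w1, hw1, hl1⟩ := hdown _ (hks q1)
  obtain ⟨w2, hw2, hl2⟩ := hup _ (hkt q2)
  have hl1' := hr _ _ hl1
  have hl2' := hr _ _ hl2
  have hlt' := hr _ _ hlt
  rcases nbr_k _ _ _ (hO hw1) with e1 | ⟨e1, e1'⟩ | ⟨q, e1⟩
  · rcases nbr_k _ _ _ (hI hw2) with e2 | ⟨e2, e2'⟩ | ⟨q, e2⟩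
    · have := h1 q2 (Finset.mem_univ _)
      rw [e1] at hl1'; rw [e2] at hl2'
      omega
    · rw [e2, e2'] at hl2'
      omega
    · rw [e2] at hl2'
      have := h2 q (Finset.mem_univ _)
      omega
  · rw [e1, e1'] at hw1
    exact Set.disjoint_left.1 hd (show s(a g.1, k g 0) ∈ I.edgeSet from hw)
      (show s(a g.1, k g 0) ∈ O.edgeSet from hw1.symm)
  · rw [e1] at hl1'
    have := h1 q (Finset.mem_univ _)
    omega

end Pool.Agent.H.MP_bdb63f_co
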